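import Pool.Agent.R318.TT.K

/-! # The averages of Hindry and Pacheco for almost all members of a two-parameter family of hyperelliptic curves

Let `a 0, …, a n` be polynomials in `T` and `Z` with integer coefficients. For a polynomial `β` in `T` and integers `v 0` and
`v 1` let `X_v` be the family of curves `y ^ 2 = ∑ a i x ^ i` over the line with the coordinate `T`, with
`Z = β(T) + v 0 + v 1 T`. For a prime `p` let `A_p(X_v)` (`nag1`) be the mean over `t` modulo `p` of `p` minus the number of the
points of the fibre, and let `A_p(X)` (`nag2`) be the same mean over all pairs `(t, z)` modulo `p`, for the family over the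
plane. If `n = 2 g + 1` and `a n` is a constant, then the smooth fibres have genus `g` and `p` minus the number of the points is
the trace of Frobenius; the singular fibres and the fibre at infinity contribute `O(p ^ (- 1 / 2))` to the mean. By the
conjecture the `A_p`, without the trace for the Chow trace, are on average minus the rank of the Jacobian over `ℚ(T)`, and
`ℚ(T, Z)` respectively, and these are equal for general `v` (specialisation).

Theorem: `v j = c j + κ j w j`, where `w 0` and `w 1` are independent random integers with `k` independent digits in base `b`,
whose distributions are arbitrary, except that two independent copies of a digit differ with a probability of at least `η`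
(for instance the integers without some digit, or all the integers below `b ^ k`). With probability at least
`1 - C X ^ (- δ)`, for EVERY `x ≥ X` with `x ^ W ≤ b ^ k` the sum of the `(A_p(X_v) - A_p(X)) log p` over the primes `p ≤ x` is
at most `x ^ (1 / 2 + δ)`, if the very few primes are omitted for which the difference is larger than `p ^ ((1 - δ) / 2)`;
there are at most `x ^ (2 δ)` of these up to `x` (in fact only primes of bad reduction, by Deligne's theorem, and small
primes). So the averages of the problem for `X_v` are those for the two-parameter family, with an error term
`x ^ (- 1 / 2 + δ)` as for the generalised Riemann hypothesis. The constants do not depend on the family, but only on `n` and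
on a bound for the degree of the locus of the fibres for which the polynomial is a constant times a square.

Proof: modulo `p` the values `β(t) + v 0 + v 1 t` are pairwise independent for different `t`, and the traces are bounded by
Weil's bound, so the deviations of the `A_p(X_v)` have bounded second moments over all `v` modulo `p`. The random integers
are equidistributed modulo the products of two primes outside a very sparse set of moduli. This gives the second moments of
the sums over the primes in dyadic intervals; the maximum over all `x` is controlled by dyadic chaining.

Definitions used: `trF`, `nag1`, `nag2`, `cfZ`, `FewSq`, `devN` (file `K.lean`), `small`, `large`, `CloseT` (file `G.lean`) in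
`Pool.Agent.R318.TT`, and `PrV`, `Dist`, `arrays`, `wt`, `dval` in `Pool.Agent.R318.ST` (files `Fin1.lean`, `Dig.lean`).

Library: helper459 (equidistribution of families given by digits, dyadic chaining), helper435 (Weil's bound). -/

set_option autoImplicit false

namespace Pool.Agent.Results.MP_72c3ce_nt.RandomMembers

open Pool.Agent.R318.ST Pool.Agent.R318.TT

/-- **Theorem.** Let `b ≥ 2`, `η > 0` and `0 < δ ≤ 1 / 2`. There is `W` such that for all nonzero integers `κ 0`, `κ 1`, all
`n` and `D` there are `C` and `X₀` with the following property. Let `a 0, …, a n` be in `ℤ[T, Z]`, such that for every odd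
prime `p` there are at most `D p` pairs `(t, z)` modulo `p` for which `∑ a i(t, z) x ^ i` is a constant times a square modulo
`p` (`FewSq`), and let `β` be in `ℤ[T]`. For all `k`, all `X ≥ X₀`, all integers `c j` and all distributions `u j` of `k` digits
in base `b` such that two independent copies of a digit differ with probability at least `η` (`Dist`), the integers
`v j = c j + κ j w j`, where `w j` are independent integers with independent digits with the distributions `u j`, satisfy,
with an exceptional probability of at most `C X ^ (- δ)`: for EVERY `x ≥ X` with `x ^ W ≤ b ^ k` the sum of the `d_p log p` over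
the primes `p ≤ x` with `|d_p| ≤ p ^ ((1 - δ) / 2)` is at most `x ^ (1 / 2 + δ)` in absolute value, and at most `x ^ (2 δ)` primes
up to `x` satisfy `|d_p| > p ^ ((1 - δ) / 2)` (`CloseT`), where `d_p` (`devN`) is the difference of the mean over `t` modulo `p`
of `p` minus the number of the points of `y ^ 2 = ∑ a i x ^ i`, `Z = β(T) + v 0 + v 1 T`, and of the same mean over all pairs
`(t, z)` modulo `p`. -/
theorem result (b : ℕ) (hb : 2 ≤ b) (η : ℝ) (hη : 0 < η) (δ : ℝ) (hδ : 0 < δ) (hδ1 : δ ≤ 1 / 2) : ∃ W : ℕ, 1 ≤ W ∧
    ∀ κ : Fin 2 → ℤ, (∀ j, κ j ≠ 0) → ∀ n D : ℕ, ∃ (C : ℝ) (X₀ : ℕ), 0 < C ∧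
    ∀ a : Fin (n + 1) → MvPolynomial (Fin 2) ℤ, FewSq D a → ∀ (β : Polynomial ℤ) (k X : ℕ), X₀ ≤ X →
    ∀ (c : Fin 2 → ℤ) (u : Fin 2 → ℕ → ℕ → ℝ), (∀ j, Dist b k η (u j)) →
    PrV b k u (fun g => ¬ CloseT δ X W (b ^ k) (devN a β (fun j => c j + κ j * (dval b (g j) : ℕ)))) ≤
      C * (X : ℝ) ^ (-δ) :=
  mainN b hb η hη δ hδ hδ1

end Pool.Agent.Results.MP_72c3ce_nt.RandomMembers
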